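import Pool.Agent.R5.TP.Hash

/-! Counting the graphs with a representation of threshold `t`. -/

namespace Pool.Agent.R5.TP

open Finset

/-- `f` represents `G` with threshold `t`: distinct vertices are adjacent exactly when their
vectors have Hamming distance at least `t`. -/
def IsRep {V : Type*} (G : SimpleGraph V) (t : ℕ) {d : ℕ} (f : V → Fin d → ℤ) : Prop :=
  ∀ u v, u ≠ v → (G.Adj u v ↔ t ≤ hammingDist (f u) (f v))

lemma card_small (X : Type*) [Fintype X] [DecidableEq X] (t : ℕ) :
    Fintype.card {S : Finset X // S.card ≤ t} ≤ (Fintype.card X + 1) ^ t := by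
  classical
  have h : Fintype.card (Fin t → Option X) = (Fintype.card X + 1) ^ t := by simp
  rw [← h]
  apply Fintype.card_le_of_injective
    (fun S : {S : Finset X // S.card ≤ t} => fun i : Fin t => S.1.toList[i.val]?)
  intro S S' hSS
  have hl : S.1.toList = S'.1.toList := by
    apply List.ext_getElem?
    intro i
    by_cases hi : i < t
    · exact congrFun hSS ⟨i, hi⟩
    · rw [List.getElem?_eq_none, List.getElem?_eq_none]
      · rw [length_toList]; exact le_trans S'.2 (not_lt.mp hi)
      · rw [length_toList]; exact le_trans S.2 (not_lt.mp hi)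
  apply Subtype.ext
  rw [← toList_toFinset S.1, ← toList_toFinset S'.1, hl]

section fam

variable {V : Type*} {Δ r : ℕ} (α β : Fin Δ × Fin r → V)

/-- The graph of a system of permutations. -/
def Gs (σ : Fin Δ → Fin Δ → Equiv.Perm (Fin r)) : SimpleGraph V :=
  SimpleGraph.fromRel (fun u v => ∃ j k x, u = α (j, x) ∧ v = β (k, σ j k x))

variable {α β}

lemma Gs_adj (hα : Function.Injective α) (hβ : Function.Injective β) (hαβ : ∀ p q, α p ≠ β q)
    (σ : Fin Δ → Fin Δ → Equiv.Perm (Fin r)) (j k : Fin Δ) (x y : Fin r) :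
    (Gs α β σ).Adj (α (j, x)) (β (k, y)) ↔ σ j k x = y := by
  unfold Gs
  rw [SimpleGraph.fromRel_adj]
  constructor
  · rintro ⟨_, ⟨j', k', x', h1, h2⟩ | ⟨j', k', x', h1, h2⟩⟩
    · have e1 := hα h1
      have e2 := hβ h2
      simp only [Prod.mk.injEq] at e1 e2
      obtain ⟨rfl, rfl⟩ := e1
      obtain ⟨rfl, rfl⟩ := e2
      rfl
    · exact absurd h1.symm (hαβ _ _)
  · intro h
    refine ⟨hαβ _ _, Or.inl ⟨j, k, x, rfl, by rw [h]⟩⟩

lemma Gs_isol {v0 : V} (h0α : ∀ p, α p ≠ v0) (h0β : ∀ p, β p ≠ v0)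
    (σ : Fin Δ → Fin Δ → Equiv.Perm (Fin r)) (v : V) : ¬ (Gs α β σ).Adj v v0 := by
  unfold Gs
  rw [SimpleGraph.fromRel_adj]
  rintro ⟨_, ⟨j', k', x', h1, h2⟩ | ⟨j', k', x', h1, h2⟩⟩
  · exact h0β _ h2.symm
  · exact h0α _ h1.symm

theorem count_le [Fintype V] [DecidableEq V]
    (hα : Function.Injective α) (hβ : Function.Injective β) (hαβ : ∀ p q, α p ≠ β q)
    {v0 : V} (h0α : ∀ p, α p ≠ v0) (h0β : ∀ p, β p ≠ v0)
    {t D R B : ℕ} (ht : 1 ≤ t) [NeZero D] [NeZero R]
    (hB : ∀ k, (D * R) * k ≤ (t ^ 2 * R + t * D) * (Δ * Δ * r) → k ≤ B)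
    (hrep : ∀ σ : Fin Δ → Fin Δ → Equiv.Perm (Fin r), ∃ (d : ℕ) (f : V → Fin d → ℤ),
      IsRep (Gs α β σ) t f) :
    (r.factorial) ^ (Δ * Δ) ≤
      ((D * R + 1) ^ t) ^ (Fintype.card V) * ((Fintype.card V) ^ 2 + 1) ^ B := by
  classical
  haveI : Nonempty V := ⟨v0⟩
  -- the data of one system
  have key : ∀ σ : Fin Δ → Fin Δ → Equiv.Perm (Fin r),
      ∃ (F : V → Fin D → ZMod R) (S : Finset (V × V)),
        (∀ v, (univ.filter (fun b => F v b ≠ 0)).card ≤ t) ∧ S.card ≤ B ∧
        ∀ j k x y, σ j k x = y ↔ (t ≤ hammingDist (F (α (j, x))) (F (β (k, y))) ∨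
          (α (j, x), β (k, y)) ∈ S) := by
    intro σ
    obtain ⟨d, f, hf⟩ := hrep σ
    -- values in `V`
    let f' : V → Fin d → V := fun v e => Function.invFun (fun w => f w e) (f v e)
    have hf' : ∀ u v e, f' u e = f' v e ↔ f u e = f v e := by
      intro u v e
      have hinv : ∀ w, f (f' w e) e = f w e := by
        intro w
        exact Function.invFun_eq (f := fun w => f w e) ⟨w, rfl⟩
      constructor
      · intro h
        rw [← hinv u, ← hinv v, h]
      · intro h
        simp only [f']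
        rw [h]
    have hdist : ∀ u v, hammingDist (f' u) (f' v) = hammingDist (f u) (f v) := by
      intro u v
      unfold hammingDist
      congr 1
      apply filter_congr
      intro e _
      rw [ne_eq, ne_eq, hf']
    let p : (Fin Δ × Fin Δ) × Fin r → V × V := fun i =>
      (α (i.1.1, i.2), β (i.1.2, σ i.1.1 i.1.2 i.2))
    have hp : ∀ i, t ≤ hammingDist (f' (p i).1) (f' (p i).2) := by
      intro i
      rw [hdist]
      exact (hf _ _ (hαβ _ _)).mp ((Gs_adj hα hβ hαβ σ _ _ _ _).mpr rfl)
    obtain ⟨h, g, hbad⟩ := exists_hash (D := D) (R := R) f' v0 t p hp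
    refine ⟨Fh f' v0 h g, (univ.filter (fun i =>
        hammingDist (Fh f' v0 h g (p i).1) (Fh f' v0 h g (p i).2) < t)).image p, ?_, ?_, ?_⟩
    · intro v
      have h1 : (univ.filter (fun b => Fh f' v0 h g v b ≠ 0)).card =
          hammingDist (Fh f' v0 h g v) (Fh f' v0 h g v0) := by
        unfold hammingDist
        congr 1
        apply filter_congr
        intro b _
        rw [Fh_base]
      rw [h1]
      refine le_trans (Fh_dist_le f' v0 h g v v0) ?_
      rw [hdist]
      by_cases hv : v = v0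
      · subst hv; simp
      · have h2 := Gs_isol h0α h0β σ v
        rw [hf v v0 hv] at h2
        omega
    · refine le_trans card_image_le ?_
      apply hB
      refine le_trans hbad (le_of_eq ?_)
      congr 1
      simp
    · intro j k x y
      constructor
      · intro hs
        by_cases hb : hammingDist (Fh f' v0 h g (α (j, x))) (Fh f' v0 h g (β (k, y))) < t
        · right
          rw [mem_image]
          refine ⟨((j, k), x), ?_, ?_⟩
          · rw [mem_filter]
            refine ⟨mem_univ _, ?_⟩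
            simp only [p]
            rw [hs]
            exact hb
          · simp only [p]
            rw [hs]
        · left; exact not_lt.mp hb
      · rintro (h1 | h1)
        · have h2 := le_trans h1 (Fh_dist_le f' v0 h g _ _)
          rw [hdist] at h2
          exact (Gs_adj hα hβ hαβ σ _ _ _ _).mp ((hf _ _ (hαβ _ _)).mpr h2)
        · rw [mem_image] at h1
          obtain ⟨i, _, hi⟩ := h1
          simp only [p, Prod.mk.injEq] at hi
          obtain ⟨e1, e2⟩ := hi
          have e1 := hα e1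
          have e2 := hβ e2
          simp only [Prod.mk.injEq] at e1 e2
          rw [← e1.1, ← e1.2, ← e2.1, ← e2.2]
  choose F S hF hS hFS using key
  -- the code
  have hsup : ∀ (φ : Fin D → ZMod R), (univ.filter (fun b => φ b ≠ 0)).card ≤ t →
      (univ.filter (fun q : Fin D × ZMod R => q.2 ≠ 0 ∧ φ q.1 = q.2)).card ≤ t := by
    intro φ hφ
    refine le_trans (card_le_card_of_injOn Prod.fst ?_ ?_) hφ
    · intro q hq
      simp only [coe_filter, mem_univ, true_and, Set.mem_setOf_eq] at hq ⊢
      rw [hq.2]; exact hq.1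
    · intro q hq q' hq' hqq
      simp only [coe_filter, mem_univ, true_and, Set.mem_setOf_eq] at hq hq'
      exact Prod.ext hqq (by rw [← hq.2, ← hq'.2, hqq])
  have hsupinj : ∀ (φ ψ : Fin D → ZMod R),
      (univ.filter (fun q : Fin D × ZMod R => q.2 ≠ 0 ∧ φ q.1 = q.2)) =
      (univ.filter (fun q : Fin D × ZMod R => q.2 ≠ 0 ∧ ψ q.1 = q.2)) → φ = ψ := by
    intro φ ψ h
    funext b
    by_cases hb : φ b = 0
    · by_contra hne
      have hψ : ψ b ≠ 0 := fun h0 => hne (by rw [hb, h0])
      have : (b, ψ b) ∈ univ.filter (fun q : Fin D × ZMod R => q.2 ≠ 0 ∧ ψ q.1 = q.2) := by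
        rw [mem_filter]; exact ⟨mem_univ _, hψ, rfl⟩
      rw [← h, mem_filter] at this
      exact hne this.2.2
    · have : (b, φ b) ∈ univ.filter (fun q : Fin D × ZMod R => q.2 ≠ 0 ∧ φ q.1 = q.2) := by
        rw [mem_filter]; exact ⟨mem_univ _, hb, rfl⟩
      rw [h, mem_filter] at this
      exact this.2.2.symm
  let code : (Fin Δ → Fin Δ → Equiv.Perm (Fin r)) →
      (V → {Q : Finset (Fin D × ZMod R) // Q.card ≤ t}) × {Q : Finset (V × V) // Q.card ≤ B} :=
    fun σ => (fun v => ⟨univ.filter (fun q : Fin D × ZMod R => q.2 ≠ 0 ∧ F σ v q.1 = q.2),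
      hsup _ (hF σ v)⟩, ⟨S σ, hS σ⟩)
  have hinj : Function.Injective code := by
    intro σ τ h
    simp only [code, Prod.mk.injEq] at h
    obtain ⟨h1, h2⟩ := h
    have hFF : F σ = F τ := by
      funext v
      apply hsupinj
      have := congrFun h1 v
      simpa using this
    have hSS : S σ = S τ := by simpa using h2
    funext j k
    ext1 x
    have := (hFS σ j k x (σ j k x)).mp rfl
    rw [hFF, hSS] at this
    exact ((hFS τ j k x (σ j k x)).mpr this).symm
  have hc := Fintype.card_le_of_injective code hinj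
  have hl : Fintype.card (Fin Δ → Fin Δ → Equiv.Perm (Fin r)) = (r.factorial) ^ (Δ * Δ) := by
    rw [Fintype.card_fun, Fintype.card_fun, Fintype.card_perm, Fintype.card_fin, Fintype.card_fin,
      pow_mul]
  rw [hl, Fintype.card_prod, Fintype.card_fun] at hc
  refine le_trans hc (Nat.mul_le_mul ?_ ?_)
  · apply Nat.pow_le_pow_left
    refine le_trans (card_small _ _) (le_of_eq ?_)
    rw [Fintype.card_prod, Fintype.card_fin, ZMod.card]
  · refine le_trans (card_small _ _) (le_of_eq ?_)
    rw [Fintype.card_prod, sq]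

end fam

end Pool.Agent.R5.TP
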