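import Pool.Agent.R5.TP.Count

/-! The threshold Prague dimension and the family on `Fin n`. -/

namespace Pool.Agent.R5.TP

open Finset

/-- The threshold Prague dimension. -/
noncomputable def tpd {V : Type*} (G : SimpleGraph V) : ℕ :=
  sInf {t : ℕ | ∃ (d : ℕ) (f : V → Fin d → ℤ), IsRep G t f}

/-- `G` has maximum degree `Δ`. -/
def HasMaxDegree {V : Type*} (G : SimpleGraph V) (Δ : ℕ) : Prop :=
  (∀ v, (G.neighborSet v).ncard ≤ Δ) ∧ ∃ v, (G.neighborSet v).ncard = Δ

/-- `T n Δ` is the maximum of `tpd G` over the graphs on `n` vertices with maximum degree `Δ`. -/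
noncomputable def T (n Δ : ℕ) : ℕ :=
  sSup {k : ℕ | ∃ G : SimpleGraph (Fin n), HasMaxDegree G Δ ∧ tpd G = k}

lemma exists_rep {n : ℕ} (G : SimpleGraph (Fin n)) :
    ∃ (t d : ℕ) (f : Fin n → Fin d → ℤ), IsRep G t f := by
  classical
  refine ⟨n * n, n * n, fun v e => if ¬ G.Adj (finProdFinEquiv.symm e).1 (finProdFinEquiv.symm e).2 ∧
    (v = (finProdFinEquiv.symm e).1 ∨ v = (finProdFinEquiv.symm e).2) then -1 else (v : ℤ), ?_⟩
  intro u v huv
  constructor
  · intro hadj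
    unfold hammingDist
    have : (univ.filter (fun e : Fin (n * n) => (fun v e => if ¬ G.Adj (finProdFinEquiv.symm e).1 (finProdFinEquiv.symm e).2 ∧
    (v = (finProdFinEquiv.symm e).1 ∨ v = (finProdFinEquiv.symm e).2) then (-1 : ℤ) else (v : ℤ)) u e ≠
    (fun v e => if ¬ G.Adj (finProdFinEquiv.symm e).1 (finProdFinEquiv.symm e).2 ∧
    (v = (finProdFinEquiv.symm e).1 ∨ v = (finProdFinEquiv.symm e).2) then (-1 : ℤ) else (v : ℤ)) v e)) = univ := by
      rw [filter_eq_self]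
      intro e _
      generalize finProdFinEquiv.symm e = q
      have hu : (0 : ℤ) ≤ ((u : ℕ) : ℤ) := Int.natCast_nonneg _
      have hv : (0 : ℤ) ≤ ((v : ℕ) : ℤ) := Int.natCast_nonneg _
      have huv' : ((u : ℕ) : ℤ) ≠ ((v : ℕ) : ℤ) := by
        intro h
        apply huv
        apply Fin.ext
        exact_mod_cast h
      dsimp only
      split_ifs with h1 h2 h2
      · exfalso
        rcases h1 with ⟨h1, h1'⟩
        rcases h2 with ⟨_, h2'⟩
        rcases h1' with h1' | h1' <;> rcases h2' with h2' | h2'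
        · exact huv (h1'.trans h2'.symm)
        · rw [h1', h2'] at hadj; exact h1 hadj
        · rw [h1', h2'] at hadj; exact h1 hadj.symm
        · exact huv (h1'.trans h2'.symm)
      · intro h; rw [← h] at hv; norm_num at hv
      · intro h; rw [h] at hu; norm_num at hu
      · exact huv'
    rw [this, card_univ, Fintype.card_fin]
  · intro h
    by_contra hnadj
    unfold hammingDist at h
    have hlt : (univ.filter (fun e : Fin (n * n) => (fun v e => if ¬ G.Adj (finProdFinEquiv.symm e).1 (finProdFinEquiv.symm e).2 ∧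
    (v = (finProdFinEquiv.symm e).1 ∨ v = (finProdFinEquiv.symm e).2) then (-1 : ℤ) else (v : ℤ)) u e ≠
    (fun v e => if ¬ G.Adj (finProdFinEquiv.symm e).1 (finProdFinEquiv.symm e).2 ∧
    (v = (finProdFinEquiv.symm e).1 ∨ v = (finProdFinEquiv.symm e).2) then (-1 : ℤ) else (v : ℤ)) v e)).card <
      Fintype.card (Fin (n * n)) := by
      apply card_lt_univ_of_notMem (x := finProdFinEquiv (u, v))
      rw [mem_filter]
      rintro ⟨_, h2⟩
      apply h2
      simp [hnadj]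
    rw [Fintype.card_fin] at hlt
    exact absurd h (not_le.mpr hlt)

lemma lift {n t d : ℕ} {G : SimpleGraph (Fin n)} {f : Fin n → Fin d → ℤ} (h : IsRep G t f) :
    ∃ f' : Fin n → Fin (d + 1) → ℤ, IsRep G (t + 1) f' := by
  classical
  refine ⟨fun v => Fin.cons ((v : ℕ) : ℤ) (f v), ?_⟩
  intro u v huv
  have huv' : ((u : ℕ) : ℤ) ≠ ((v : ℕ) : ℤ) := by
    intro h
    apply huv
    apply Fin.ext
    exact_mod_cast h
  have hd : hammingDist (Fin.cons ((u : ℕ) : ℤ) (f u) : Fin (d + 1) → ℤ)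
      (Fin.cons ((v : ℕ) : ℤ) (f v)) = hammingDist (f u) (f v) + 1 := by
    unfold hammingDist
    rw [card_filter, card_filter, Fin.sum_univ_succ]
    simp only [Fin.cons_zero, Fin.cons_succ]
    rw [if_pos huv', add_comm]
  rw [hd, h u v huv]
  omega

lemma lift_le {n t s : ℕ} {G : SimpleGraph (Fin n)} (hts : t ≤ s)
    (h : ∃ (d : ℕ) (f : Fin n → Fin d → ℤ), IsRep G t f) :
    ∃ (d : ℕ) (f : Fin n → Fin d → ℤ), IsRep G s f := by
  induction s, hts using Nat.le_induction with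
  | base => exact h
  | succ s _ ih =>
    obtain ⟨d, f, hf⟩ := ih
    obtain ⟨f', hf'⟩ := lift hf
    exact ⟨d + 1, f', hf'⟩

lemma tpd_spec {n : ℕ} (G : SimpleGraph (Fin n)) :
    ∃ (d : ℕ) (f : Fin n → Fin d → ℤ), IsRep G (tpd G) f := by
  have hne : {t : ℕ | ∃ (d : ℕ) (f : Fin n → Fin d → ℤ), IsRep G t f}.Nonempty := by
    obtain ⟨t, d, f, hf⟩ := exists_rep G
    exact ⟨t, d, f, hf⟩
  exact Nat.sInf_mem hne

lemma tpd_le_T {n Δ : ℕ} (G : SimpleGraph (Fin n)) (hG : HasMaxDegree G Δ) :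
    tpd G ≤ T n Δ := by
  apply le_csSup
  · apply Set.Finite.bddAbove
    have : {k : ℕ | ∃ G : SimpleGraph (Fin n), HasMaxDegree G Δ ∧ tpd G = k} =
        (fun G : SimpleGraph (Fin n) => tpd G) '' {G | HasMaxDegree G Δ} := by
      ext k
      constructor
      · rintro ⟨G, h1, h2⟩; exact ⟨G, h1, h2⟩
      · rintro ⟨G, h1, h2⟩; exact ⟨G, h1, h2⟩
    rw [this]
    exact (Set.toFinite _).image _
  · exact ⟨G, hG, rfl⟩

/-- The left vertices. -/
def al {n Δ r : ℕ} (hn : 2 * (Δ * r) + 1 ≤ n) (p : Fin Δ × Fin r) : Fin n :=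
  ⟨(finProdFinEquiv p).val, by have := (finProdFinEquiv p).isLt; omega⟩

/-- The right vertices. -/
def be {n Δ r : ℕ} (hn : 2 * (Δ * r) + 1 ≤ n) (p : Fin Δ × Fin r) : Fin n :=
  ⟨Δ * r + (finProdFinEquiv p).val, by have := (finProdFinEquiv p).isLt; omega⟩

lemma al_inj {n Δ r : ℕ} (hn : 2 * (Δ * r) + 1 ≤ n) : Function.Injective (al hn) := by
  intro p q h
  have := congrArg Fin.val h
  simp only [al] at this
  exact finProdFinEquiv.injective (Fin.ext this)

lemma be_inj {n Δ r : ℕ} (hn : 2 * (Δ * r) + 1 ≤ n) : Function.Injective (be hn) := by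
  intro p q h
  have := congrArg Fin.val h
  simp only [be] at this
  exact finProdFinEquiv.injective (Fin.ext (by omega))

lemma al_ne_be {n Δ r : ℕ} (hn : 2 * (Δ * r) + 1 ≤ n) (p q : Fin Δ × Fin r) :
    al hn p ≠ be hn q := by
  intro h
  have := congrArg Fin.val h
  simp only [al, be] at this
  have := (finProdFinEquiv p).isLt
  omega

lemma Gs_maxDegree {V : Type*} [Finite V] {Δ r : ℕ} {α β : Fin Δ × Fin r → V}
    (hα : Function.Injective α) (hβ : Function.Injective β) (hαβ : ∀ p q, α p ≠ β q)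
    (hΔ : 0 < Δ) (hr : 0 < r)
    (σ : Fin Δ → Fin Δ → Equiv.Perm (Fin r)) : HasMaxDegree (Gs α β σ) Δ := by
  classical
  have hA : ∀ j x, (Gs α β σ).neighborSet (α (j, x)) = Set.range (fun k => β (k, σ j k x)) := by
    intro j x
    ext w
    rw [SimpleGraph.mem_neighborSet, Gs, SimpleGraph.fromRel_adj]
    constructor
    · rintro ⟨_, ⟨j', k', x', h1, h2⟩ | ⟨j', k', x', h1, h2⟩⟩
      · have e1 := hα h1
        simp only [Prod.mk.injEq] at e1
        obtain ⟨rfl, rfl⟩ := e1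
        exact ⟨k', h2.symm⟩
      · exact absurd h2 (hαβ _ _)
    · rintro ⟨k, rfl⟩
      exact ⟨hαβ _ _, Or.inl ⟨j, k, x, rfl, rfl⟩⟩
  have hB : ∀ k y, (Gs α β σ).neighborSet (β (k, y)) =
      Set.range (fun j => α (j, (σ j k).symm y)) := by
    intro k y
    ext w
    rw [SimpleGraph.mem_neighborSet, Gs, SimpleGraph.fromRel_adj]
    constructor
    · rintro ⟨_, ⟨j', k', x', h1, h2⟩ | ⟨j', k', x', h1, h2⟩⟩
      · exact absurd h1.symm (hαβ _ _)
      · have e1 := hβ h2
        simp only [Prod.mk.injEq] at e1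
        obtain ⟨rfl, rfl⟩ := e1
        refine ⟨j', ?_⟩
        simp [h1]
    · rintro ⟨j, rfl⟩
      refine ⟨(hαβ _ _).symm, Or.inr ⟨j, k, (σ j k).symm y, rfl, ?_⟩⟩
      simp
  have hcA : ∀ j x, ((Gs α β σ).neighborSet (α (j, x))).ncard = Δ := by
    intro j x
    rw [hA, ← Set.image_univ, Set.ncard_image_of_injective, Set.ncard_univ]
    · simp
    · intro a b hab
      have := hβ hab
      simp only [Prod.mk.injEq] at this
      exact this.1
  have hcB : ∀ k y, ((Gs α β σ).neighborSet (β (k, y))).ncard = Δ := by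
    intro k y
    rw [hB, ← Set.image_univ, Set.ncard_image_of_injective, Set.ncard_univ]
    · simp
    · intro a b hab
      have := hα hab
      simp only [Prod.mk.injEq] at this
      exact this.1
  refine ⟨?_, ⟨α (⟨0, hΔ⟩, ⟨0, hr⟩), hcA _ _⟩⟩
  intro v
  by_cases h1 : ∃ p, v = α p
  · obtain ⟨⟨j, x⟩, rfl⟩ := h1
    exact le_of_eq (hcA j x)
  · by_cases h2 : ∃ p, v = β p
    · obtain ⟨⟨k, y⟩, rfl⟩ := h2
      exact le_of_eq (hcB k y)
    · have : (Gs α β σ).neighborSet v = ∅ := by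
        ext w
        rw [SimpleGraph.mem_neighborSet, Gs, SimpleGraph.fromRel_adj]
        simp only [Set.mem_empty_iff_false, iff_false]
        rintro ⟨_, ⟨j', k', x', h3, h4⟩ | ⟨j', k', x', h3, h4⟩⟩
        · exact h1 ⟨_, h3⟩
        · exact h2 ⟨_, h4⟩
      rw [this]; simp

lemma T_pos {n Δ r : ℕ} (hΔ : 1 ≤ Δ) (hr : 1 ≤ r) (hn : 2 * (Δ * r) + 1 ≤ n) : 1 ≤ T n Δ := by
  classical
  have hG := Gs_maxDegree (al_inj hn) (be_inj hn) (al_ne_be hn) hΔ hr
    (fun _ _ => Equiv.refl _)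
  refine le_trans ?_ (tpd_le_T _ hG)
  by_contra hcon
  have h0 : tpd (Gs (al hn) (be hn) (fun _ _ => Equiv.refl _)) = 0 := by omega
  obtain ⟨d, f, hf⟩ := tpd_spec (Gs (al hn) (be hn) (fun _ _ => Equiv.refl _))
  rw [h0] at hf
  have hv0 : ∀ p, al hn p ≠ (⟨n - 1, by omega⟩ : Fin n) := by
    intro p h
    have := congrArg Fin.val h
    simp only [al] at this
    have := (finProdFinEquiv p).isLt
    omega
  have hv0' : ∀ p, be hn p ≠ (⟨n - 1, by omega⟩ : Fin n) := by
    intro p h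
    have := congrArg Fin.val h
    simp only [be] at this
    have := (finProdFinEquiv p).isLt
    omega
  have := (hf (al hn (⟨0, hΔ⟩, ⟨0, hr⟩)) ⟨n - 1, by omega⟩ (hv0 _)).mpr (Nat.zero_le _)
  exact Gs_isol hv0 hv0' _ _ this

/-- The counting inequality. -/
theorem main_count {n Δ r t D R B : ℕ} (hΔ : 1 ≤ Δ) (hr : 1 ≤ r) (hn : 2 * (Δ * r) + 1 ≤ n)
    (ht : T n Δ ≤ t) (ht1 : 1 ≤ t) (hD : 0 < D) (hR : 0 < R)
    (hB : ∀ k, (D * R) * k ≤ (t ^ 2 * R + t * D) * (Δ * Δ * r) → k ≤ B) :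
    (r.factorial) ^ (Δ * Δ) ≤ ((D * R + 1) ^ t) ^ n * (n ^ 2 + 1) ^ B := by
  classical
  have : NeZero D := ⟨hD.ne'⟩
  have : NeZero R := ⟨hR.ne'⟩
  have hv0 : ∀ p, al hn p ≠ (⟨n - 1, by omega⟩ : Fin n) := by
    intro p h
    have := congrArg Fin.val h
    simp only [al] at this
    have := (finProdFinEquiv p).isLt
    omega
  have hv0' : ∀ p, be hn p ≠ (⟨n - 1, by omega⟩ : Fin n) := by
    intro p h
    have := congrArg Fin.val h
    simp only [be] at this
    have := (finProdFinEquiv p).isLt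
    omega
  have h := count_le (al_inj hn) (be_inj hn) (al_ne_be hn) hv0 hv0' ht1 hB (by
    intro σ
    have hG := Gs_maxDegree (al_inj hn) (be_inj hn) (al_ne_be hn) hΔ hr σ
    exact lift_le (le_trans (tpd_le_T _ hG) ht) (tpd_spec _))
  rw [Fintype.card_fin] at h
  exact h

end Pool.Agent.R5.TP
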