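import Mathlib

/-! Hashing of the coordinates and of the values of a Hamming representation. -/

namespace Pool.Agent.R5.TP

open Finset

variable {V : Type*} [Fintype V] [DecidableEq V]

/-- The hashed vector of `v`: bucket `b` holds the sum of the hashed values (relative to the
base vertex) of the coordinates in the bucket. -/
def Fh {d D R : ℕ} (f : V → Fin d → V) (v0 : V) (h : Fin d → Fin D) (g : Fin d → V → ZMod R)
    (v : V) (b : Fin D) : ZMod R :=
  ∑ e ∈ univ.filter (fun e => h e = b), (g e (f v e) - g e (f v0 e))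

lemma Fh_base {d D R : ℕ} (f : V → Fin d → V) (v0 : V) (h : Fin d → Fin D)
    (g : Fin d → V → ZMod R) (b : Fin D) : Fh f v0 h g v0 b = 0 := by
  unfold Fh; simp

lemma Fh_dist_le {d D R : ℕ} (f : V → Fin d → V) (v0 : V) (h : Fin d → Fin D)
    (g : Fin d → V → ZMod R) (u v : V) :
    hammingDist (Fh f v0 h g u) (Fh f v0 h g v) ≤ hammingDist (f u) (f v) := by
  classical
  unfold hammingDist
  have hsub : (univ.filter (fun b => Fh f v0 h g u b ≠ Fh f v0 h g v b)) ⊆
      (univ.filter (fun e => f u e ≠ f v e)).image h := by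
    intro b hb
    rw [mem_filter] at hb
    by_contra hcon
    apply hb.2
    unfold Fh
    apply sum_congr rfl
    intro e he
    rw [mem_filter] at he
    have : f u e = f v e := by
      by_contra hne
      apply hcon
      rw [mem_image]
      exact ⟨e, by rw [mem_filter]; exact ⟨mem_univ _, hne⟩, he.2⟩
    rw [this]
  exact le_trans (card_le_card hsub) card_image_le

lemma Fh_sub {d D R : ℕ} (f : V → Fin d → V) (v0 : V) (h : Fin d → Fin D)
    (g : Fin d → V → ZMod R) (u v : V) (b : Fin D) :
    Fh f v0 h g u b - Fh f v0 h g v b =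
      ∑ e ∈ univ.filter (fun e => h e = b), (g e (f u e) - g e (f v e)) := by
  unfold Fh
  rw [← sum_sub_distrib]
  apply sum_congr rfl
  intro e _
  ring

/-- Collisions of two coordinates in a random bucket assignment. -/
lemma card_coll {d D : ℕ} {G : Type*} [Fintype G] (e e' : Fin d) (hne : e ≠ e') :
    D * (univ.filter (fun w : (Fin d → Fin D) × G => w.1 e = w.1 e')).card ≤
      Fintype.card ((Fin d → Fin D) × G) := by
  classical
  have : D * (univ.filter (fun w : (Fin d → Fin D) × G => w.1 e = w.1 e')).card =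
      ((univ : Finset (Fin D)) ×ˢ
        (univ.filter (fun w : (Fin d → Fin D) × G => w.1 e = w.1 e'))).card := by
    rw [card_product]; simp
  rw [this, ← card_univ]
  apply card_le_card_of_injOn (fun p => (Function.update p.2.1 e p.1, p.2.2))
  · intro x _; simp
  · intro p hp q hq hpq
    simp only [coe_product, Set.mem_prod, mem_coe, mem_filter, mem_univ, true_and] at hp hq
    simp only [Prod.mk.injEq] at hpq
    obtain ⟨h1, h2⟩ := hpq
    have ha : p.1 = q.1 := by
      have := congrFun h1 e
      simpa using this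
    have hb : p.2.1 = q.2.1 := by
      funext i
      by_cases hi : i = e
      · subst hi
        rw [hp, hq]
        have := congrFun h1 e'
        rw [Function.update_of_ne hne.symm, Function.update_of_ne hne.symm] at this
        exact this
      · have := congrFun h1 i
        rw [Function.update_of_ne hi, Function.update_of_ne hi] at this
        exact this
    exact Prod.ext ha (Prod.ext hb h2)

/-- Vanishing of the hashed difference in the bucket of a differing coordinate. -/
lemma card_vanish {d D R : ℕ} [NeZero R] (f : V → Fin d → V) (v0 : V) (u v : V) (e : Fin d)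
    (hne : f u e ≠ f v e) :
    R * (univ.filter (fun w : (Fin d → Fin D) × (Fin d → V → ZMod R) =>
      Fh f v0 w.1 w.2 u (w.1 e) = Fh f v0 w.1 w.2 v (w.1 e))).card ≤
      Fintype.card ((Fin d → Fin D) × (Fin d → V → ZMod R)) := by
  classical
  have h0 : R * (univ.filter (fun w : (Fin d → Fin D) × (Fin d → V → ZMod R) =>
      Fh f v0 w.1 w.2 u (w.1 e) = Fh f v0 w.1 w.2 v (w.1 e))).card =
      ((univ : Finset (ZMod R)) ×ˢ
        (univ.filter (fun w : (Fin d → Fin D) × (Fin d → V → ZMod R) =>
      Fh f v0 w.1 w.2 u (w.1 e) = Fh f v0 w.1 w.2 v (w.1 e)))).card := by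
    rw [card_product, card_univ, ZMod.card]
  rw [h0, ← card_univ]
  -- the shift
  let S : ZMod R → (Fin d → V → ZMod R) → (Fin d → V → ZMod R) := fun c g =>
    Function.update g e (Function.update (g e) (f u e) (g e (f u e) + c))
  have hS : ∀ c g i x, S c g i x = g i x + (if i = e ∧ x = f u e then c else 0) := by
    intro c g i x
    simp only [S]
    by_cases hi : i = e
    · subst hi
      rw [Function.update_self]
      by_cases hx : x = f u i
      · subst hx; simp
      · rw [Function.update_of_ne hx]; simp [hx]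
    · rw [Function.update_of_ne hi]; simp [hi]
  have hdiff : ∀ (h : Fin d → Fin D) c g, Fh f v0 h (S c g) u (h e) - Fh f v0 h (S c g) v (h e) =
      Fh f v0 h g u (h e) - Fh f v0 h g v (h e) + c := by
    intro h c g
    rw [Fh_sub, Fh_sub]
    have : ∀ i ∈ univ.filter (fun i => h i = h e), (S c g i (f u i) - S c g i (f v i)) =
        (g i (f u i) - g i (f v i)) + (if i = e then c else 0) := by
      intro i _
      rw [hS, hS]
      by_cases hi : i = e
      · subst hi
        simp [Ne.symm hne]; ring
      · simp [hi]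
    rw [sum_congr rfl this, sum_add_distrib]
    congr 1
    rw [sum_ite_eq' ]
    simp
  apply card_le_card_of_injOn (fun p => (p.2.1, S p.1 p.2.2))
  · intro x _; simp
  · intro p hp q hq hpq
    simp only [coe_product, Set.mem_prod, mem_coe, mem_filter, mem_univ, true_and] at hp hq
    simp only [Prod.mk.injEq] at hpq
    obtain ⟨h1, h2⟩ := hpq
    have hc : p.1 = q.1 := by
      have e1 := hdiff p.2.1 p.1 p.2.2
      have e2 := hdiff q.2.1 q.1 q.2.2
      rw [hp, sub_self, zero_add] at e1
      rw [hq, sub_self, zero_add] at e2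
      rw [← e1, ← e2, h1, h2]
    have hg : p.2.2 = q.2.2 := by
      funext i x
      have := congrFun (congrFun h2 i) x
      rw [hS, hS, hc] at this
      exact add_right_cancel this
    exact Prod.ext hc (Prod.ext h1 hg)

/-- The fraction of bad hashes of one pair is at most `t²/D + t/R`. -/
lemma card_bad {d D R : ℕ} [NeZero R] (f : V → Fin d → V) (v0 : V) (u v : V) (t : ℕ)
    (ht : t ≤ hammingDist (f u) (f v)) :
    (D * R) * (univ.filter (fun w : (Fin d → Fin D) × (Fin d → V → ZMod R) =>
      hammingDist (Fh f v0 w.1 w.2 u) (Fh f v0 w.1 w.2 v) < t)).card ≤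
      (t ^ 2 * R + t * D) * Fintype.card ((Fin d → Fin D) × (Fin d → V → ZMod R)) := by
  classical
  unfold hammingDist at ht
  obtain ⟨K, hK, hKc⟩ := exists_subset_card_eq ht
  set N := Fintype.card ((Fin d → Fin D) × (Fin d → V → ZMod R)) with hN
  have hsub : (univ.filter (fun w : (Fin d → Fin D) × (Fin d → V → ZMod R) =>
      hammingDist (Fh f v0 w.1 w.2 u) (Fh f v0 w.1 w.2 v) < t)) ⊆
      ((K ×ˢ K).filter (fun p => p.1 ≠ p.2)).biUnion (fun p => univ.filter
        (fun w : (Fin d → Fin D) × (Fin d → V → ZMod R) => w.1 p.1 = w.1 p.2)) ∪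
      K.biUnion (fun e => univ.filter (fun w : (Fin d → Fin D) × (Fin d → V → ZMod R) =>
      Fh f v0 w.1 w.2 u (w.1 e) = Fh f v0 w.1 w.2 v (w.1 e))) := by
    intro w hw
    rw [mem_filter] at hw
    by_contra hcon
    rw [mem_union, not_or] at hcon
    obtain ⟨h1, h2⟩ := hcon
    have hinj : Set.InjOn w.1 K := by
      intro a ha b hb hab
      by_contra hne
      apply h1
      rw [mem_biUnion]
      refine ⟨(a, b), ?_, ?_⟩
      · rw [mem_filter, mem_product]; exact ⟨⟨ha, hb⟩, hne⟩
      · rw [mem_filter]; exact ⟨mem_univ _, hab⟩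
    have himg : K.image w.1 ⊆ univ.filter (fun b => Fh f v0 w.1 w.2 u b ≠ Fh f v0 w.1 w.2 v b) := by
      intro b hb
      rw [mem_image] at hb
      obtain ⟨e, he, rfl⟩ := hb
      rw [mem_filter]
      refine ⟨mem_univ _, ?_⟩
      intro heq
      apply h2
      rw [mem_biUnion]
      exact ⟨e, he, by rw [mem_filter]; exact ⟨mem_univ _, heq⟩⟩
    have := card_le_card himg
    rw [card_image_of_injOn hinj, hKc] at this
    have h3 := hw.2
    unfold hammingDist at h3
    omega
  have hc := card_le_card hsub
  have hc1 := le_trans hc (card_union_le _ _)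
  have hA : D * (((K ×ˢ K).filter (fun p => p.1 ≠ p.2)).biUnion (fun p => univ.filter
        (fun w : (Fin d → Fin D) × (Fin d → V → ZMod R) => w.1 p.1 = w.1 p.2))).card ≤
        t ^ 2 * N := by
    calc D * (((K ×ˢ K).filter (fun p => p.1 ≠ p.2)).biUnion (fun p => univ.filter
        (fun w : (Fin d → Fin D) × (Fin d → V → ZMod R) => w.1 p.1 = w.1 p.2))).card
        ≤ D * ∑ p ∈ (K ×ˢ K).filter (fun p => p.1 ≠ p.2), (univ.filter
        (fun w : (Fin d → Fin D) × (Fin d → V → ZMod R) => w.1 p.1 = w.1 p.2)).card :=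
          Nat.mul_le_mul_left _ card_biUnion_le
      _ = ∑ p ∈ (K ×ˢ K).filter (fun p => p.1 ≠ p.2), D * (univ.filter
        (fun w : (Fin d → Fin D) × (Fin d → V → ZMod R) => w.1 p.1 = w.1 p.2)).card := by
          rw [mul_sum]
      _ ≤ ∑ p ∈ (K ×ˢ K).filter (fun p => p.1 ≠ p.2), N := by
          apply sum_le_sum
          intro p hp
          rw [mem_filter] at hp
          exact card_coll p.1 p.2 hp.2
      _ = ((K ×ˢ K).filter (fun p => p.1 ≠ p.2)).card * N := by
          rw [sum_const, smul_eq_mul]
      _ ≤ t ^ 2 * N := by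
          apply Nat.mul_le_mul_right
          refine le_trans (card_filter_le _ _) ?_
          rw [card_product, hKc, sq]
  have hB : R * (K.biUnion (fun e => univ.filter
      (fun w : (Fin d → Fin D) × (Fin d → V → ZMod R) =>
      Fh f v0 w.1 w.2 u (w.1 e) = Fh f v0 w.1 w.2 v (w.1 e)))).card ≤ t * N := by
    calc R * (K.biUnion (fun e => univ.filter
      (fun w : (Fin d → Fin D) × (Fin d → V → ZMod R) =>
      Fh f v0 w.1 w.2 u (w.1 e) = Fh f v0 w.1 w.2 v (w.1 e)))).card
        ≤ R * ∑ e ∈ K, (univ.filter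
      (fun w : (Fin d → Fin D) × (Fin d → V → ZMod R) =>
      Fh f v0 w.1 w.2 u (w.1 e) = Fh f v0 w.1 w.2 v (w.1 e))).card :=
          Nat.mul_le_mul_left _ card_biUnion_le
      _ = ∑ e ∈ K, R * (univ.filter
      (fun w : (Fin d → Fin D) × (Fin d → V → ZMod R) =>
      Fh f v0 w.1 w.2 u (w.1 e) = Fh f v0 w.1 w.2 v (w.1 e))).card := by rw [mul_sum]
      _ ≤ ∑ e ∈ K, N := by
          apply sum_le_sum
          intro e he
          have := hK he
          rw [mem_filter] at this
          exact card_vanish f v0 u v e this.2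
      _ = t * N := by rw [sum_const, smul_eq_mul, hKc]
  calc (D * R) * _ ≤ (D * R) * (_ + _) := Nat.mul_le_mul_left _ hc1
    _ = R * (D * _) + D * (R * _) := by ring
    _ ≤ R * (t ^ 2 * N) + D * (t * N) := Nat.add_le_add (Nat.mul_le_mul_left _ hA)
        (Nat.mul_le_mul_left _ hB)
    _ = (t ^ 2 * R + t * D) * N := by ring

/-- Some hash loses few of the given pairs. -/
lemma exists_hash {d D R : ℕ} [NeZero R] [NeZero D] (f : V → Fin d → V) (v0 : V) (t : ℕ)
    {ι : Type*} [Fintype ι] (p : ι → V × V)
    (ht : ∀ i, t ≤ hammingDist (f (p i).1) (f (p i).2)) :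
    ∃ (h : Fin d → Fin D) (g : Fin d → V → ZMod R),
      (D * R) * (univ.filter (fun i : ι =>
        hammingDist (Fh f v0 h g (p i).1) (Fh f v0 h g (p i).2) < t)).card ≤
      (t ^ 2 * R + t * D) * Fintype.card ι := by
  classical
  by_contra hcon
  push Not at hcon
  have hlt : ∑ w : (Fin d → Fin D) × (Fin d → V → ZMod R),
      (t ^ 2 * R + t * D) * Fintype.card ι <
      ∑ w : (Fin d → Fin D) × (Fin d → V → ZMod R), (D * R) * (univ.filter (fun i : ι =>
        hammingDist (Fh f v0 w.1 w.2 (p i).1) (Fh f v0 w.1 w.2 (p i).2) < t)).card := by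
    apply sum_lt_sum_of_nonempty
    · exact univ_nonempty
    · intro w _
      exact hcon w.1 w.2
  have hsw : ∑ w : (Fin d → Fin D) × (Fin d → V → ZMod R), (D * R) * (univ.filter (fun i : ι =>
        hammingDist (Fh f v0 w.1 w.2 (p i).1) (Fh f v0 w.1 w.2 (p i).2) < t)).card =
      ∑ i : ι, (D * R) * (univ.filter (fun w : (Fin d → Fin D) × (Fin d → V → ZMod R) =>
      hammingDist (Fh f v0 w.1 w.2 (p i).1) (Fh f v0 w.1 w.2 (p i).2) < t)).card := by
    simp only [card_filter, mul_sum]
    rw [sum_comm]
  rw [hsw] at hlt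
  have hle : ∑ i : ι, (D * R) * (univ.filter (fun w : (Fin d → Fin D) × (Fin d → V → ZMod R) =>
      hammingDist (Fh f v0 w.1 w.2 (p i).1) (Fh f v0 w.1 w.2 (p i).2) < t)).card ≤
      ∑ i : ι, (t ^ 2 * R + t * D) * Fintype.card ((Fin d → Fin D) × (Fin d → V → ZMod R)) := by
    apply sum_le_sum
    intro i _
    exact card_bad f v0 (p i).1 (p i).2 t (ht i)
  have := lt_of_lt_of_le hlt hle
  rw [sum_const, sum_const, card_univ, card_univ, smul_eq_mul, smul_eq_mul] at this
  have he : Fintype.card ((Fin d → Fin D) × (Fin d → V → ZMod R)) *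
      ((t ^ 2 * R + t * D) * Fintype.card ι) =
      Fintype.card ι * ((t ^ 2 * R + t * D) *
        Fintype.card ((Fin d → Fin D) × (Fin d → V → ZMod R))) := by ring
  rw [he] at this
  exact lt_irrefl _ this

end Pool.Agent.R5.TP
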