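import Pool.Agent.R5.TP.Fam

/-! The numerical part of the lower bound. -/

namespace Pool.Agent.R5.TP

open Real

lemma log_factorial_ge (r : ℕ) (hr : 1 ≤ r) :
    (r : ℝ) * (Real.log r - 1) ≤ Real.log (r.factorial) := by
  have hr0 : (0 : ℝ) < r := by exact_mod_cast hr
  have hf : (0 : ℝ) < (r.factorial : ℝ) := by exact_mod_cast Nat.factorial_pos r
  have h := Real.pow_div_factorial_le_exp (r : ℝ) hr0.le r
  rw [div_le_iff₀ hf] at h
  have h2 := Real.log_le_log (by positivity) h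
  rw [Real.log_pow, Real.log_mul (Real.exp_pos _).ne' hf.ne', Real.log_exp] at h2
  nlinarith

/-- From the counting inequality to `Δ (log r - 2) ≤ 4 t log (t³ M² + 1)`. -/
lemma log_ineq {n Δ r t M : ℕ} (hΔ : 1 ≤ Δ) (hr : 1 ≤ r) (hn : 2 * (Δ * r) + 1 ≤ n)
    (hn4 : n ≤ 4 * (Δ * r)) (ht : T n Δ ≤ t) (ht1 : 1 ≤ t) (hM : 1 ≤ M)
    (hM2 : 2 * Real.log ((n : ℝ) ^ 2 + 1) ≤ M) :
    (Δ : ℝ) * (Real.log r - 2) ≤ 4 * t * Real.log ((t : ℝ) ^ 3 * (M : ℝ) ^ 2 + 1) := by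
  have hmain := main_count (D := t ^ 2 * M) (R := t * M) (B := (2 * (Δ * Δ * r)) / M) hΔ hr hn ht ht1
    (by positivity) (by positivity) (by
      intro k hk
      rw [Nat.le_div_iff_mul_le (by omega)]
      have hpos : 0 < t ^ 3 * M := by positivity
      apply Nat.le_of_mul_le_mul_left _ hpos
      calc t ^ 3 * M * (k * M) = (t ^ 2 * M * (t * M)) * k := by ring
        _ ≤ (t ^ 2 * (t * M) + t * (t ^ 2 * M)) * (Δ * Δ * r) := hk
        _ = t ^ 3 * M * (2 * (Δ * Δ * r)) := by ring)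
  have hfpos : (0 : ℝ) < (r.factorial : ℝ) := by exact_mod_cast Nat.factorial_pos r
  have hreal : ((r.factorial : ℝ)) ^ (Δ * Δ) ≤
      ((((t : ℝ) ^ 2 * M) * (t * M) + 1) ^ t) ^ n * ((n : ℝ) ^ 2 + 1) ^ ((2 * (Δ * Δ * r)) / M) := by
    exact_mod_cast hmain
  have ht0 : (0 : ℝ) < t := by exact_mod_cast ht1
  have hM0 : (0 : ℝ) < M := by exact_mod_cast hM
  have hX : (0 : ℝ) < ((t : ℝ) ^ 2 * M) * (t * M) + 1 := by positivity
  have hY : (0 : ℝ) < (n : ℝ) ^ 2 + 1 := by positivity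
  have hlog := Real.log_le_log (by positivity) hreal
  rw [Real.log_pow, Real.log_mul (by positivity) (by positivity), Real.log_pow, Real.log_pow,
    Real.log_pow] at hlog
  have hXe : ((t : ℝ) ^ 2 * M) * (t * M) + 1 = (t : ℝ) ^ 3 * (M : ℝ) ^ 2 + 1 := by ring
  rw [hXe] at hlog
  obtain ⟨L, hL⟩ : ∃ L, L = Real.log ((t : ℝ) ^ 3 * (M : ℝ) ^ 2 + 1) := ⟨_, rfl⟩
  obtain ⟨Q, hQ⟩ : ∃ Q, Q = Real.log ((n : ℝ) ^ 2 + 1) := ⟨_, rfl⟩
  rw [← hL, ← hQ] at hlog
  rw [← hQ] at hM2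
  rw [← hL]
  have hL0 : 0 ≤ L := by
    rw [hL]
    apply Real.log_nonneg
    have : (0 : ℝ) ≤ (t : ℝ) ^ 3 * (M : ℝ) ^ 2 := by positivity
    linarith
  have hQ0 : 0 ≤ Q := by
    rw [hQ]
    apply Real.log_nonneg
    have : (0 : ℝ) ≤ (n : ℝ) ^ 2 := by positivity
    linarith
  have hfac := log_factorial_ge r hr
  have hΔ0 : (0 : ℝ) < Δ := by exact_mod_cast hΔ
  have hr0 : (0 : ℝ) < r := by exact_mod_cast hr
  -- the last term
  have hB : (((2 * (Δ * Δ * r)) / M : ℕ) : ℝ) * Q ≤ (Δ : ℝ) * Δ * r := by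
    have h1 : (((2 * (Δ * Δ * r)) / M : ℕ) : ℝ) ≤ (2 * ((Δ : ℝ) * Δ * r)) / M := by
      have := @Nat.cast_div_le ℝ _ _ _ (2 * (Δ * Δ * r)) M
      push_cast at this ⊢
      exact this
    calc (((2 * (Δ * Δ * r)) / M : ℕ) : ℝ) * Q ≤ ((2 * ((Δ : ℝ) * Δ * r)) / M) * Q :=
          mul_le_mul_of_nonneg_right h1 hQ0
      _ = ((Δ : ℝ) * Δ * r) * (2 * Q / M) := by ring
      _ ≤ ((Δ : ℝ) * Δ * r) * 1 := by
          apply mul_le_mul_of_nonneg_left _ (by positivity)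
          rw [div_le_one hM0]
          exact hM2
      _ = (Δ : ℝ) * Δ * r := by ring
  have hn4' : (n : ℝ) ≤ 4 * (Δ * r) := by exact_mod_cast hn4
  have h1 : ((Δ * Δ : ℕ) : ℝ) * Real.log (r.factorial) ≥ (Δ : ℝ) * Δ * (r * (Real.log r - 1)) := by
    push_cast
    exact mul_le_mul_of_nonneg_left hfac (by positivity)
  have h2 : (n : ℝ) * (t * L) ≤ (4 * (Δ * r)) * (t * L) :=
    mul_le_mul_of_nonneg_right hn4' (by positivity)
  have h3 : (Δ : ℝ) * Δ * (r * (Real.log r - 1)) ≤ (4 * (Δ * r)) * (t * L) + (Δ : ℝ) * Δ * r := by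
    linarith
  have h4 : ((Δ : ℝ) * r) * (Δ * (Real.log r - 2)) ≤ ((Δ : ℝ) * r) * (4 * t * L) := by
    nlinarith
  exact le_of_mul_le_mul_left h4 (by positivity)

lemma log4_le : Real.log 4 ≤ 1.4 := by
  have : Real.log 4 = 2 * Real.log 2 := by
    rw [show (4 : ℝ) = 2 ^ 2 by norm_num, Real.log_pow]; norm_num
  rw [this]
  have := Real.log_two_lt_d9
  linarith

lemma log1000_ge : 6.9 ≤ Real.log 1000 := by
  have h1 : Real.log 1000 ≥ Real.log (1024 * (0.97 : ℝ)) := by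
    apply Real.log_le_log (by norm_num); norm_num
  have h2 : Real.log (1024 * (0.97 : ℝ)) = 10 * Real.log 2 + Real.log 0.97 := by
    rw [Real.log_mul (by norm_num) (by norm_num)]
    rw [show (1024 : ℝ) = 2 ^ 10 by norm_num, Real.log_pow]; norm_num
  have h3 : 1 - (0.97 : ℝ)⁻¹ ≤ Real.log 0.97 := Real.one_sub_inv_le_log_of_pos (by norm_num)
  have := Real.log_two_gt_d9
  have h4 : (0.97 : ℝ)⁻¹ ≤ 1.031 := by norm_num
  -- 10 * 0.69314 = 6.9314; minus 0.031 = 6.9004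
  linarith

theorem final {n Δ : ℕ} (hΔ : 1 ≤ Δ) (hn : 1000 * Δ ≤ n) :
    (1 / 56 : ℝ) * (Δ * Real.log ((n : ℝ) / Δ)) / (Real.log Δ + Real.log (Real.log n)) ≤
      (T n Δ : ℝ) := by
  have hΔ0 : (0 : ℝ) < Δ := by exact_mod_cast hΔ
  have hn1000 : (1000 : ℝ) * Δ ≤ n := by exact_mod_cast hn
  have hΔ1 : (1 : ℝ) ≤ Δ := by exact_mod_cast hΔ
  have hnr : (1000 : ℝ) ≤ n := by nlinarith
  have hn0 : (0 : ℝ) < n := by linarith
  have hlogn : 6.9 ≤ Real.log n := le_trans log1000_ge (Real.log_le_log (by norm_num) hnr)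
  have hlogD : 0 ≤ Real.log Δ := Real.log_nonneg hΔ1
  have hll : 1.9 ≤ Real.log (Real.log n) := by
    have h1 : Real.log 6.9 ≤ Real.log (Real.log n) := Real.log_le_log (by norm_num) hlogn
    have h2 : (1.9 : ℝ) ≤ Real.log 6.9 := by
      rw [Real.le_log_iff_exp_le (by norm_num)]
      have : Real.exp 1.9 = Real.exp 1 * Real.exp 0.9 := by rw [← Real.exp_add]; norm_num
      have h3 : Real.exp 0.9 ≤ 2.5 := by
        have h4 : Real.exp 0.9 = (Real.exp 0.1) ^ 9 := by rw [← Real.exp_nat_mul]; norm_num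
        have h5 : Real.exp 0.1 ≤ 1.1052 := by
          have := Real.exp_bound' (x := 0.1) (by norm_num) (by norm_num) (n := 4) (by norm_num)
          refine le_trans this ?_
          norm_num [Finset.sum_range_succ, Nat.factorial]
        rw [h4]
        calc (Real.exp 0.1) ^ 9 ≤ (1.1052 : ℝ) ^ 9 := by
              apply pow_le_pow_left₀ (Real.exp_pos _).le h5
          _ ≤ 2.5 := by norm_num
      rw [this]
      have := Real.exp_one_lt_d9
      have h6 := Real.exp_pos (1 : ℝ)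
      nlinarith [Real.exp_pos (0.9 : ℝ)]
    linarith
  have hden : 0 < Real.log Δ + Real.log (Real.log n) := by linarith
  have hquot : (1000 : ℝ) ≤ (n : ℝ) / Δ := by
    rw [le_div_iff₀ hΔ0]; exact hn1000
  have hlq : 6.9 ≤ Real.log ((n : ℝ) / Δ) :=
    le_trans log1000_ge (Real.log_le_log (by norm_num) hquot)
  have hlqn : Real.log ((n : ℝ) / Δ) ≤ Real.log n := by
    apply Real.log_le_log (by positivity)
    rw [div_le_iff₀ hΔ0]
    nlinarith
  rw [div_le_iff₀ hden]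
  obtain ⟨r, hr⟩ : ∃ r, r = (n - 1) / (2 * Δ) := ⟨_, rfl⟩
  have hr1 : 1 ≤ r := by
    rw [hr, Nat.le_div_iff_mul_le (by omega)]
    omega
  have hmod : (2 * Δ) * r ≤ n - 1 := by
    rw [hr]; exact Nat.mul_div_le _ _
  have hlt : n - 1 < (2 * Δ) * (r + 1) := by
    rw [hr]; exact Nat.lt_mul_div_succ _ (by omega)
  have hnr1 : 2 * (Δ * r) + 1 ≤ n := by
    have : (2 * Δ) * r = 2 * (Δ * r) := by ring
    omega
  have hΔr : Δ ≤ Δ * r := Nat.le_mul_of_pos_right _ hr1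
  have hn4 : n ≤ 4 * (Δ * r) := by
    have : (2 * Δ) * (r + 1) = 2 * (Δ * r) + 2 * Δ := by ring
    omega
  have hT1 : 1 ≤ T n Δ := T_pos hΔ hr1 hnr1
  obtain ⟨t, htdef⟩ : ∃ t, t = T n Δ := ⟨_, rfl⟩
  rw [← htdef] at hT1 ⊢
  have ht1 : (1 : ℝ) ≤ t := by exact_mod_cast hT1
  by_cases hbig : (Δ : ℝ) * Real.log n ≤ t
  · calc (1 / 56 : ℝ) * (Δ * Real.log ((n : ℝ) / Δ)) ≤ 1 * (Δ * Real.log n) := by
          apply mul_le_mul (by norm_num) _ (by positivity) (by norm_num)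
          exact mul_le_mul_of_nonneg_left hlqn hΔ0.le
      _ ≤ t * 1 := by linarith
      _ ≤ t * (Real.log Δ + Real.log (Real.log n)) := by
          apply mul_le_mul_of_nonneg_left _ (by positivity)
          linarith
  · push Not at hbig
    obtain ⟨Q, hQ⟩ : ∃ Q, Q = Real.log ((n : ℝ) ^ 2 + 1) := ⟨_, rfl⟩
    have hQn : Q ≤ 2 * Real.log n + 0.01 := by
      rw [hQ]
      have h1 : (n : ℝ) ^ 2 + 1 = (n : ℝ) ^ 2 * (1 + 1 / (n : ℝ) ^ 2) := by
        field_simp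
      rw [h1, Real.log_mul (by positivity) (by positivity), Real.log_pow]
      have h2 : Real.log (1 + 1 / (n : ℝ) ^ 2) ≤ 1 / (n : ℝ) ^ 2 := by
        have := Real.log_le_sub_one_of_pos (show 0 < 1 + 1 / (n : ℝ) ^ 2 by positivity)
        linarith
      have h3 : 1 / (n : ℝ) ^ 2 ≤ 0.01 := by
        rw [div_le_iff₀ (by positivity)]
        nlinarith
      push_cast
      linarith
    have hQ0 : 0 ≤ Q := by
      rw [hQ]
      apply Real.log_nonneg
      nlinarith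
    obtain ⟨M, hM⟩ : ∃ M, M = ⌈2 * Q⌉₊ + 1 := ⟨_, rfl⟩
    have hM2 : 2 * Q ≤ M := by
      rw [hM]; push_cast
      have := Nat.le_ceil (2 * Q)
      linarith
    have hM3 : (M : ℝ) ≤ 5 * Real.log n := by
      rw [hM]; push_cast
      have := Nat.ceil_lt_add_one (show 0 ≤ 2 * Q by positivity)
      linarith
    have hmain := log_ineq (M := M) hΔ hr1 hnr1 hn4 (le_of_eq htdef.symm) hT1 (by omega)
      (by rw [← hQ]; exact hM2)
    obtain ⟨l, hl⟩ : ∃ l, l = Real.log n := ⟨_, rfl⟩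
    rw [← hl] at hM3 hbig hll hden hlogn ⊢
    have hl0 : 0 < l := by linarith
    -- the logarithm on the right
    have hR : Real.log ((t : ℝ) ^ 3 * (M : ℝ) ^ 2 + 1) ≤ 7 * (Real.log Δ + Real.log l) := by
      have hM0 : (0 : ℝ) ≤ M := Nat.cast_nonneg _
      have h1 : (t : ℝ) ^ 3 ≤ (Δ * l) ^ 3 := pow_le_pow_left₀ (by positivity) hbig.le 3
      have h2 : (M : ℝ) ^ 2 ≤ (5 * l) ^ 2 := pow_le_pow_left₀ hM0 hM3 2
      have h3 : (t : ℝ) ^ 3 * (M : ℝ) ^ 2 + 1 ≤ 26 * Δ ^ 3 * l ^ 5 := by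
        have h4 : (t : ℝ) ^ 3 * (M : ℝ) ^ 2 ≤ (Δ * l) ^ 3 * (5 * l) ^ 2 :=
          mul_le_mul h1 h2 (by positivity) (by positivity)
        have h5 : (1 : ℝ) ≤ Δ ^ 3 * l ^ 5 := by
          have ha : (1 : ℝ) ≤ Δ ^ 3 := one_le_pow₀ hΔ1
          have hb : (1 : ℝ) ≤ l ^ 5 := one_le_pow₀ (by linarith)
          nlinarith
        calc (t : ℝ) ^ 3 * (M : ℝ) ^ 2 + 1 ≤ (Δ * l) ^ 3 * (5 * l) ^ 2 + Δ ^ 3 * l ^ 5 :=
              add_le_add h4 h5
          _ = 26 * Δ ^ 3 * l ^ 5 := by ring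
      have h6 := Real.log_le_log (by positivity) h3
      rw [Real.log_mul (by positivity) (by positivity), Real.log_mul (by norm_num) (by positivity),
        Real.log_pow, Real.log_pow] at h6
      have h7 : Real.log 26 ≤ 3.5 := by
        have h8 : Real.log 26 ≤ Real.log 32 := Real.log_le_log (by norm_num) (by norm_num)
        have h9 : Real.log 32 = 5 * Real.log 2 := by
          rw [show (32 : ℝ) = 2 ^ 5 by norm_num, Real.log_pow]; norm_num
        have := Real.log_two_lt_d9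
        linarith
      push_cast at h6
      linarith
    have hrlow : (1 / 2 : ℝ) * Real.log ((n : ℝ) / Δ) ≤ Real.log r - 2 := by
      have hr0 : (0 : ℝ) < r := by exact_mod_cast hr1
      have h1 : (n : ℝ) / Δ / 4 ≤ r := by
        rw [div_div, div_le_iff₀ (by positivity)]
        have : (n : ℝ) ≤ 4 * (Δ * r) := by exact_mod_cast hn4
        linarith
      have h2 := Real.log_le_log (by positivity) h1
      rw [Real.log_div (by positivity) (by norm_num)] at h2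
      have := log4_le
      linarith
    have hfin : (Δ : ℝ) * ((1 / 2 : ℝ) * Real.log ((n : ℝ) / Δ)) ≤
        4 * t * (7 * (Real.log Δ + Real.log l)) := by
      calc (Δ : ℝ) * ((1 / 2 : ℝ) * Real.log ((n : ℝ) / Δ)) ≤ Δ * (Real.log r - 2) :=
            mul_le_mul_of_nonneg_left hrlow hΔ0.le
        _ ≤ 4 * t * Real.log ((t : ℝ) ^ 3 * (M : ℝ) ^ 2 + 1) := hmain
        _ ≤ 4 * t * (7 * (Real.log Δ + Real.log l)) :=
            mul_le_mul_of_nonneg_left hR (by positivity)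
    linarith

end Pool.Agent.R5.TP
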